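import Pool.Agent.V1215.MMS.M7

/-! # The scaling quotient of the space of mm-spaces is contractible

`MM` is the type of mm-spaces; `XX BoxLE` (resp. `XX ConcLE`) is the metric space of mm-spaces with
the box distance (resp. the observable distance), where two mm-spaces are identified when their
distance is zero, `pt` is the class of the one point space, `XS` is the complement of `pt` and `Sig`
is the quotient of `XS` by the scaling action, with the quotient topology. For both distances the
quotient is contractible.

Idea of the proof. For a scale `a > 0` let `G(X, a)` be the supremum over the 1-Lipschitz functions
`f` on `X` of the mean of `r / (a + r)`, `r = |f x - f y|`, and let `m(X, τ)` be the scale at which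
`G(X, ·)` falls to `τ > 0` (zero if it is nowhere larger). It is homogeneous in `X` and jointly
continuous in `X` and `τ`, also for the observable distance. The homotopy is `(X, t) ↦ (1 - t) X ×₁ t m(X, 1 - t) {0, 1}`, for `t < 1`, and
the class of the two point space for `t = 1`. As the homotopy is equivariant for `t < 1`, it descends
to the quotient. The space `X` is scaled, relative to the two point space, by `(1 - t) / m(X, 1 - t)`,
which tends to zero as `t → 1`, locally uniformly, as `m(X, 1 - t)` is bounded below. -/

set_option autoImplicit false

namespace Pool.Agent.Results.MP_3020f5_gt.ScalingQuotientContractible

open Pool.Agent.V1215.MMS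

theorem result : ContractibleSpace (Sig BoxLE) ∧ ContractibleSpace (Sig ConcLE) :=
  ⟨Sig_contr, Sig_contr⟩

end Pool.Agent.Results.MP_3020f5_gt.ScalingQuotientContractible
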